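import Mathlib
import Pool.Agent.Helper680.RigidConfig

namespace Pool.Agent.Results.MP_532797_co.NotRigid

/-- A combinatorial (n_3) configuration: n points and n lines (both indexed by Fin n), incidence relation I,
every point on exactly three lines, every line containing exactly three points,
two distinct points on at most one common line. -/
structure IsConfiguration (n : ℕ) (I : Fin n → Fin n → Prop) : Prop where
  lines_through : ∀ p, {l | I p l}.ncard = 3
  points_on : ∀ l, {p | I p l}.ncard = 3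
  linear : ∀ p q l m, p ≠ q → I p l → I q l → I p m → I q m → l = m

/-- A geometric realization in the real projective plane: points of the plane are the one-dimensional
subspaces of the real vector space of dimension three, lines are the two-dimensional subspaces,
a point lies on a line when it is contained in it. Distinct points go to distinct points,
distinct lines to distinct lines, and incidence holds exactly when prescribed. -/
structure Realization {n : ℕ} (I : Fin n → Fin n → Prop) where
  point : Fin n → Submodule ℝ (Fin 3 → ℝ)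
  line : Fin n → Submodule ℝ (Fin 3 → ℝ)
  point_dim : ∀ p, Module.finrank ℝ (point p) = 1
  line_dim : ∀ l, Module.finrank ℝ (line l) = 2
  point_inj : Function.Injective point
  line_inj : Function.Injective line
  incidence : ∀ p l, point p ≤ line l ↔ I p l

/-- Projective equivalence: a projective transformation (induced by an invertible linear map)
carries every point and every line of R to the corresponding one of S. -/
def ProjEquiv {n : ℕ} {I : Fin n → Fin n → Prop} (R S : Realization I) : Prop :=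
  ∃ g : (Fin 3 → ℝ) ≃ₗ[ℝ] (Fin 3 → ℝ),
    (∀ p, (R.point p).map (g : (Fin 3 → ℝ) →ₗ[ℝ] (Fin 3 → ℝ)) = S.point p) ∧
    (∀ l, (R.line l).map (g : (Fin 3 → ℝ) →ₗ[ℝ] (Fin 3 → ℝ)) = S.line l)

/-- A 3-configuration: a combinatorial (n_3) configuration with at least one geometric realization. -/
def Is3Configuration (n : ℕ) (I : Fin n → Fin n → Prop) : Prop :=
  IsConfiguration n I ∧ Nonempty (Realization I)

/-- Rigid: all geometric realizations lie in a single projective equivalence class. -/
def IsRigid {n : ℕ} (I : Fin n → Fin n → Prop) : Prop :=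
  ∀ R S : Realization I, ProjEquiv R S

open Matrix Pool.Agent.Helper680.RigidConfig.Th

/-- the Levi graph -/
def levi {n : ℕ} {I : Fin n → Fin n → Prop} (hI : IsConfiguration n I) : Cfg (Fin n ⊕ Fin n) where
  adj := fun x y => match x, y with
    | Sum.inl p, Sum.inr l => I p l
    | Sum.inr l, Sum.inl p => I p l
    | _, _ => False
  col := fun x => match x with
    | Sum.inl _ => true
    | Sum.inr _ => false
  symm := by
    rintro (p | l) (q | m) h <;> exact h
  bip := by
    rintro (p | l) (q | m) h <;> simp_all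
  three := by
    rintro (p | l)
    · obtain ⟨a, b, c, hab, hac, hbc, h⟩ := Set.ncard_eq_three.mp (hI.lines_through p)
      refine ⟨Sum.inr a, Sum.inr b, Sum.inr c, by simpa using hab, by simpa using hac, by simpa using hbc, ?_, ?_, ?_, ?_⟩
      · show a ∈ {l | I p l}
        rw [h]; simp
      · show b ∈ {l | I p l}
        rw [h]; simp
      · show c ∈ {l | I p l}
        rw [h]; simp
      · rintro (q | m) hw
        · exact hw.elim
        · have : m ∈ {l | I p l} := hw
          rw [h] at this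
          simpa using this
    · obtain ⟨a, b, c, hab, hac, hbc, h⟩ := Set.ncard_eq_three.mp (hI.points_on l)
      refine ⟨Sum.inl a, Sum.inl b, Sum.inl c, by simpa using hab, by simpa using hac, by simpa using hbc, ?_, ?_, ?_, ?_⟩
      · show a ∈ {p | I p l}
        rw [h]; simp
      · show b ∈ {p | I p l}
        rw [h]; simp
      · show c ∈ {p | I p l}
        rw [h]; simp
      · rintro (q | m) hw
        · have : q ∈ {p | I p l} := hw
          rw [h] at this
          simpa using this
        · exact hw.elim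
  lin := by
    rintro (p | l) (q | m) (r | k) (s | j) hxy hzw h1 h2 h3 h4
    all_goals first | exact h1.elim | exact h2.elim | exact h3.elim | exact h4.elim | skip
    · exact hzw (congrArg Sum.inr (hI.linear p q k j (fun h => hxy (congrArg Sum.inl h)) h1 h3 h2 h4))
    · exact hxy (congrArg Sum.inr (hI.linear r s l m (fun h => hzw (congrArg Sum.inl h)) h1 h2 h3 h4))

theorem sep {V : Type} (G : Cfg V) {x y : V} (hxy : x ≠ y) : ∃ z, G.adj x z ∧ ¬ G.adj y z := by
  obtain ⟨y1, y2, y3, h12, h13, h23, a1, a2, a3, _⟩ := G.three x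
  by_cases h : G.adj y y1
  · exact ⟨y2, a2, fun h2 => G.lin hxy h12 a1 a2 h h2⟩
  · exact ⟨y1, a1, h⟩

/-- a two-dimensional subspace has a normal vector -/
theorem exists_normal (L : Submodule ℝ (Fin 3 → ℝ)) (hL : Module.finrank ℝ L = 2) :
    ∃ ν : Fin 3 → ℝ, ν ≠ 0 ∧ ∀ x, x ∈ L ↔ x ⬝ᵥ ν = 0 := by
  have b := Module.finBasisOfFinrankEq ℝ L hL
  set x : Fin 3 → ℝ := (b 0 : Fin 3 → ℝ) with hx
  set y : Fin 3 → ℝ := (b 1 : Fin 3 → ℝ) with hy
  have hind : ∀ s t : ℝ, s • x + t • y = 0 → s = 0 ∧ t = 0 := by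
    intro s t h
    have h1 : s • b 0 + t • b 1 = 0 := by
      apply Subtype.ext
      simpa [hx, hy] using h
    have h2 := Fintype.linearIndependent_iff.mp b.linearIndependent ![s, t] (by simpa [Fin.sum_univ_two] using h1)
    exact ⟨by simpa using h2 0, by simpa using h2 1⟩
  have hy0 : y ≠ 0 := by
    intro h
    have := (hind 0 1 (by rw [h]; simp)).2
    exact one_ne_zero this
  have hxy : x ⨯₃ y ≠ 0 := by
    intro h
    obtain ⟨c, hc⟩ := prop_of_cross hy0 h
    have := (hind 1 (-c) (by rw [hc]; simp)).1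
    exact one_ne_zero this
  refine ⟨x ⨯₃ y, hxy, ?_⟩
  intro z
  constructor
  · intro hz
    have h1 : z = (b.repr ⟨z, hz⟩ 0) • x + (b.repr ⟨z, hz⟩ 1) • y := by
      have := b.sum_repr ⟨z, hz⟩
      rw [Fin.sum_univ_two] at this
      have h2 := congrArg Subtype.val this
      simpa [hx, hy] using h2.symm
    rw [h1, add_dotProduct, smul_dotProduct, smul_dotProduct, triple_self, triple_self']
    simp
  · intro hz
    obtain ⟨s, t, hst⟩ := span2 hxy (triple_self x y) (triple_self' x y) hz hxy
    rw [hst]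
    exact L.add_mem (L.smul_mem _ (b 0).2) (L.smul_mem _ (b 1).2)

theorem exists_vec (P : Submodule ℝ (Fin 3 → ℝ)) (hP : Module.finrank ℝ P = 1) :
    ∃ v : Fin 3 → ℝ, v ≠ 0 ∧ P = Submodule.span ℝ {v} := by
  obtain ⟨v, hv, h⟩ := finrank_eq_one_iff'.mp hP
  refine ⟨v, fun h0 => hv (Subtype.ext h0), ?_⟩
  ext x
  rw [Submodule.mem_span_singleton]
  constructor
  · intro hx
    obtain ⟨c, hc⟩ := h ⟨x, hx⟩
    exact ⟨c, congrArg Subtype.val hc⟩
  · rintro ⟨c, rfl⟩
    exact P.smul_mem _ v.2

/-- vectors representing a realization -/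
theorem rep_of_real {n : ℕ} {I : Fin n → Fin n → Prop} (hI : IsConfiguration n I) (R : Realization I) :
    ∃ E : Fin n ⊕ Fin n → Fin 3 → ℝ, IsRep (levi hI) E ∧
      (∀ p, R.point p = Submodule.span ℝ {E (Sum.inl p)}) ∧
      (∀ l x, x ∈ R.line l ↔ x ⬝ᵥ E (Sum.inr l) = 0) := by
  choose v hv hPv using fun p => exists_vec (R.point p) (R.point_dim p)
  choose ν hν hLν using fun l => exists_normal (R.line l) (R.line_dim l)
  have key : ∀ p l, v p ⬝ᵥ ν l = 0 ↔ I p l := by
    intro p l
    rw [← hLν l, ← R.incidence p l, hPv p, Submodule.span_singleton_le_iff_mem]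
  refine ⟨Sum.elim v ν, ⟨?_, ?_⟩, ?_, ?_⟩
  · rintro (p | l)
    · exact hv p
    · exact hν l
  · rintro (p | l) (q | m) hcol
    · exact absurd rfl hcol
    · exact key p m
    · show ν l ⬝ᵥ v q = 0 ↔ I q l
      rw [dotProduct_comm]
      exact key q l
    · exact absurd rfl hcol
  · intro p; exact hPv p
  · intro l x; exact hLν l x

/-- the plane orthogonal to a vector -/
def perp (ν : Fin 3 → ℝ) : Submodule ℝ (Fin 3 → ℝ) where
  carrier := {x | x ⬝ᵥ ν = 0}
  add_mem' := by
    intro a b ha hb
    simp only [Set.mem_ofPred_eq] at *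
    rw [add_dotProduct, ha, hb, add_zero]
  zero_mem' := by simp
  smul_mem' := by
    intro c a ha
    simp only [Set.mem_ofPred_eq] at *
    rw [smul_dotProduct, ha, smul_zero]

theorem mem_perp {ν x : Fin 3 → ℝ} : x ∈ perp ν ↔ x ⬝ᵥ ν = 0 := Iff.rfl

theorem perp_dim {ν : Fin 3 → ℝ} (hν : ν ≠ 0) : Module.finrank ℝ (perp ν) = 2 := by
  set φ : (Fin 3 → ℝ) →ₗ[ℝ] ℝ :=
    { toFun := fun x => x ⬝ᵥ ν
      map_add' := by intro a b; exact add_dotProduct a b ν
      map_smul' := by intro c a; exact smul_dotProduct c a ν } with hφ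
  have hker : perp ν = LinearMap.ker φ := by
    ext x
    rw [mem_perp, LinearMap.mem_ker]
    rfl
  have h1 := LinearMap.finrank_range_add_finrank_ker φ
  have h2 : LinearMap.range φ = ⊤ := by
    rw [LinearMap.range_eq_top]
    intro r
    have hνν : ν ⬝ᵥ ν ≠ 0 := by rw [dot3]; exact sq_ne_zero3 hν
    refine ⟨(r / (ν ⬝ᵥ ν)) • ν, ?_⟩
    show ((r / (ν ⬝ᵥ ν)) • ν) ⬝ᵥ ν = r
    rw [smul_dotProduct, smul_eq_mul, div_mul_cancel₀ _ hνν]
  rw [h2, finrank_top] at h1
  rw [hker]
  have h3 : Module.finrank ℝ ℝ = 1 := Module.finrank_self ℝ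
  have h4 : Module.finrank ℝ (Fin 3 → ℝ) = 3 := by simp
  omega

/-- a realization from vectors -/
def real_of_rep {n : ℕ} {I : Fin n → Fin n → Prop} (hI : IsConfiguration n I) (E : Fin n ⊕ Fin n → Fin 3 → ℝ)
    (hE : IsRep (levi hI) E) : Realization I where
  point := fun p => Submodule.span ℝ {E (Sum.inl p)}
  line := fun l => perp (E (Sum.inr l))
  point_dim := fun p => finrank_span_singleton (hE.1 _)
  line_dim := fun l => perp_dim (hE.1 _)
  point_inj := by
    intro p q h
    by_contra hne
    obtain ⟨z, hz1, hz2⟩ := sep (levi hI) (x := Sum.inl p) (y := Sum.inl q) (fun h => hne (Sum.inl.inj h))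
    rcases z with r | l
    · exact hz1.elim
    · apply hz2
      rw [← hE.2 (Sum.inl q) (Sum.inr l) (by simp [levi])]
      have h1 : E (Sum.inl p) ⬝ᵥ E (Sum.inr l) = 0 := hE.dot hz1
      have h2 : E (Sum.inl q) ∈ Submodule.span ℝ {E (Sum.inl p)} := by
        simp only at h
        rw [h]; exact Submodule.mem_span_singleton_self _
      obtain ⟨c, hc⟩ := Submodule.mem_span_singleton.mp h2
      rw [← hc, smul_dotProduct, h1, smul_zero]
  line_inj := by
    intro l m h
    by_contra hne
    obtain ⟨z, hz1, hz2⟩ := sep (levi hI) (x := Sum.inr l) (y := Sum.inr m) (fun h => hne (Sum.inr.inj h))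
    rcases z with p | r
    · apply hz2
      rw [← hE.2 (Sum.inr m) (Sum.inl p) (by simp [levi])]
      have h1 : E (Sum.inl p) ∈ perp (E (Sum.inr l)) := by
        rw [mem_perp, dotProduct_comm]
        exact hE.dot hz1
      simp only at h
      rw [h, mem_perp, dotProduct_comm] at h1
      exact h1
    · exact hz1.elim
  incidence := by
    intro p l
    rw [Submodule.span_singleton_le_iff_mem, mem_perp]
    exact hE.2 (Sum.inl p) (Sum.inr l) (by simp [levi])

/-- No 3-configuration is rigid. -/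
theorem result : ∀ n : ℕ, 0 < n → ∀ I : Fin n → Fin n → Prop, Is3Configuration n I → ¬ IsRigid I := by
  rintro n hn I ⟨hI, ⟨R⟩⟩ hrig
  obtain ⟨E, hE, hpt, hln⟩ := rep_of_real hI R
  obtain ⟨E', hE', hne⟩ := main_rep hE (Sum.inl ⟨0, hn⟩) rfl
  apply hne
  obtain ⟨g, hgp, hgl⟩ := hrig R (real_of_rep hI E' hE')
  have hmul : ∀ x, LinearMap.toMatrix' (g : (Fin 3 → ℝ) →ₗ[ℝ] (Fin 3 → ℝ)) *ᵥ x = g x := by
    intro x
    rw [← Matrix.toLin'_apply, Matrix.toLin'_toMatrix']
    rfl
  have hdet : (LinearMap.toMatrix' (g : (Fin 3 → ℝ) →ₗ[ℝ] (Fin 3 → ℝ))).det ≠ 0 := by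
    rw [LinearMap.det_toMatrix']
    exact (LinearEquiv.isUnit_det' g).ne_zero
  refine ⟨LinearMap.toMatrix' (g : (Fin 3 → ℝ) →ₗ[ℝ] (Fin 3 → ℝ)), hdet, ?_, ?_⟩
  · rintro (p | l) hc
    · have h1 := hgp p
      have h2 : E' (Sum.inl p) ∈ (R.point p).map (g : (Fin 3 → ℝ) →ₗ[ℝ] (Fin 3 → ℝ)) := by
        rw [h1]
        exact Submodule.mem_span_singleton_self _
      rw [hpt p, Submodule.map_span, Set.image_singleton, Submodule.mem_span_singleton] at h2
      obtain ⟨c, hc'⟩ := h2
      refine ⟨c, ?_, ?_⟩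
      · rintro rfl
        apply hE'.1 (Sum.inl p)
        rw [← hc', zero_smul]
      · rw [hmul, ← hc']
        rfl
    · exact absurd hc (by simp [levi])
  · rintro (p | l) hc
    · exact absurd hc (by simp [levi])
    · set A := LinearMap.toMatrix' (g : (Fin 3 → ℝ) →ₗ[ℝ] (Fin 3 → ℝ)) with hA
      have h1 : ∀ x, x ⬝ᵥ E (Sum.inr l) = 0 → x ⬝ᵥ (Aᵀ *ᵥ E' (Sum.inr l)) = 0 := by
        intro x hx
        have h2 : g x ∈ (R.line l).map (g : (Fin 3 → ℝ) →ₗ[ℝ] (Fin 3 → ℝ)) :=
          ⟨x, (hln l x).mpr hx, rfl⟩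
        rw [hgl l] at h2
        have h3 : (g x) ⬝ᵥ E' (Sum.inr l) = 0 := h2
        rw [← hmul] at h3
        rw [Matrix.dotProduct_mulVec, Matrix.vecMul_transpose]
        exact h3
      have h4 : (Aᵀ *ᵥ E' (Sum.inr l)) ⨯₃ E (Sum.inr l) = 0 := by
        set w := Aᵀ *ᵥ E' (Sum.inr l) with hw
        set ν := E (Sum.inr l) with hν
        have k : ∀ e : Fin 3 → ℝ, e ⬝ᵥ (w ⨯₃ ν) = 0 := by
          intro e
          have h5 := h1 (ν ⨯₃ e) (by rw [dotProduct_comm]; exact triple_self _ _)
          rw [← h5]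
          simp only [dot3, cross3]
          simp
          ring
        funext i
        have := k (Pi.single i 1)
        simpa [dotProduct, Pi.single_apply] using this
      obtain ⟨c, hc'⟩ := prop_of_cross (hE.1 (Sum.inr l)) h4
      refine ⟨c, ?_, hc'⟩
      rintro rfl
      rw [zero_smul] at hc'
      apply hE'.1 (Sum.inr l)
      have hdetT : (Aᵀ).det ≠ 0 := by rw [Matrix.det_transpose]; exact hdet
      exact Matrix.eq_zero_of_mulVec_eq_zero hdetT hc'

end Pool.Agent.Results.MP_532797_co.NotRigid
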